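import Pool.Agent.R684.FP.Main
import Pool.Agent.N77.CS.NF

/-!
# Extensions whose kernel is a free product, given by an injective homomorphism

Owner helper1.
-/

set_option autoImplicit false

namespace Pool.Agent.Run7.h1.AF

open Monoid.CoprodI
open Pool.Agent.Y110.FJ (ClosedE)
open Pool.Agent.R684.FP (FbC IsFreeProd)

variable {C : ∀ (G : Type) [Group G], Prop}

theorem C_pi {n : ℕ} (hC : Pool.Agent.Y462.SS.Closed C) :
    ∀ (X : Fin n → Type) [∀ i, Group (X i)], (∀ i, C (X i)) → C (∀ i, X i) := by
  induction n with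
  | zero =>
    intro X _ _
    refine hC.of_injective _ _ (1 : (∀ i, X i) →* Multiplicative ℤ) ?_ hC.int
    intro a b _
    exact Subsingleton.elim a b
  | succ n ih =>
    intro X _ h
    refine hC.of_injective _ (X 0 × ∀ i : Fin n, X i.succ)
      { toFun := fun f => (f 0, fun i => f i.succ)
        map_one' := rfl
        map_mul' := fun _ _ => rfl } ?_ (hC.prod _ _ (h 0) (ih _ fun i => h _))
    intro a b hab
    have h0 : a 0 = b 0 := congrArg Prod.fst hab
    have h1 : (fun i : Fin n => a i.succ) = fun i : Fin n => b i.succ := congrArg Prod.snd hab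
    funext i
    refine Fin.cases h0 (fun j => congrFun h1 j) i

/-- extensions of free products of groups in the class, kernel given by an injective homomorphism -/
theorem fpx (hC : ClosedE C) (hF : FbC C) {I : Type} {M : I → Type} [∀ i, Group (M i)] (S : Set I)
    {G : Type} [Group G] (ι : Monoid.CoprodI M →* G) (hι : Function.Injective ι) [ι.range.Normal]
    (hQ : C (G ⧸ ι.range)) (hfr : ∀ i, i ∉ S → IsFreeGroup (M i))
    (hT : ∀ i ∈ S, ∀ (g : G) (σ : MulAut (M i)), (∀ x : M i, g * ι (of x) * g⁻¹ = ι (of (σ x))) →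
      C (M i ⋊[zpowersHom (MulAut (M i)) σ] Multiplicative ℤ))
    (hp : ∀ i ∈ S, ∀ g : G, ∃ (n : Monoid.CoprodI M) (σ : MulAut (M i)), ∀ x : M i,
      g * ι (of x) * g⁻¹ = ι n * ι (of (σ x)) * (ι n)⁻¹) : C G := by
  obtain ⟨k, hk⟩ : ∃ k : ∀ i, M i →* G, ∀ i x, k i x = ι (of x) :=
    ⟨fun i => ι.comp of, fun _ _ => rfl⟩
  have hki : ∀ i, Function.Injective (k i) := by
    intro i x y hxy
    rw [hk, hk] at hxy
    exact Monoid.CoprodI.of_injective i (hι hxy)
  obtain ⟨A, hA⟩ : ∃ A : I → Subgroup G, ∀ i, A i = (k i).range := ⟨_, fun _ => rfl⟩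
  have e : ∀ i, ∃ e : M i ≃* A i, ∀ x, (e x : G) = ι (of x) := by
    intro i
    rw [hA i]
    exact ⟨MonoidHom.ofInjective (hki i), fun x => hk i x⟩
  choose e he using e
  have hmem : ∀ i (y : G), y ∈ A i ↔ ∃ x : M i, ι (of x) = y := by
    intro i y
    rw [hA i]
    constructor
    · rintro ⟨x, rfl⟩
      exact ⟨x, (hk i x).symm⟩
    · rintro ⟨x, rfl⟩
      exact ⟨x, hk i x⟩
  have hfp : IsFreeProd ι.range A := by
    constructor
    · have h1 : ι = Monoid.CoprodI.lift k := by
        apply Monoid.CoprodI.ext_hom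
        intro i
        ext x
        rw [MonoidHom.comp_apply, MonoidHom.comp_apply, Monoid.CoprodI.lift_of, hk]
      rw [h1, Monoid.CoprodI.range_eq_iSup]
      exact iSup_congr hA
    · obtain ⟨L, hL⟩ : ∃ L : Monoid.CoprodI (fun i => A i) →* G,
        L = Monoid.CoprodI.lift fun i => (A i).subtype := ⟨_, rfl⟩
      rw [← hL, injective_iff_map_eq_one]
      intro y hy
      obtain ⟨p, hp⟩ : ∃ p : Monoid.CoprodI (fun i => A i) →* Monoid.CoprodI M,
        p = Monoid.CoprodI.lift fun i => (of (M := M) (i := i)).comp (e i).symm.toMonoidHom :=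
        ⟨_, rfl⟩
      obtain ⟨q, hq⟩ : ∃ q : Monoid.CoprodI M →* Monoid.CoprodI (fun i => A i),
        q = Monoid.CoprodI.lift fun i =>
          (of (M := fun i => A i) (i := i)).comp (e i).toMonoidHom := ⟨_, rfl⟩
      have h1 : q.comp p = MonoidHom.id _ := by
        apply Monoid.CoprodI.ext_hom
        intro i
        ext x : 1
        show q (p (of (M := fun i => ↥(A i)) (i := i) x)) = of (M := fun i => ↥(A i)) (i := i) x
        rw [hp, Monoid.CoprodI.lift_of]
        show q (of ((e i).symm x)) = of (M := fun i => ↥(A i)) (i := i) x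
        rw [hq, Monoid.CoprodI.lift_of]
        exact congrArg (fun z : ↥(A i) => (of z : Monoid.CoprodI (fun i => ↥(A i))))
          ((e i).apply_symm_apply x)
      have h2 : ι.comp p = L := by
        apply Monoid.CoprodI.ext_hom
        intro i
        ext x : 1
        show ι (p (of (M := fun i => ↥(A i)) (i := i) x)) =
          L (of (M := fun i => ↥(A i)) (i := i) x)
        rw [hp, hL, Monoid.CoprodI.lift_of, Monoid.CoprodI.lift_of]
        show ι (of ((e i).symm x)) = (x : G)
        rw [← he, MulEquiv.apply_symm_apply]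
      have h3 : ι (p y) = 1 := by
        have h4 := congrArg (fun f : Monoid.CoprodI (fun i => A i) →* G => f y) h2
        have h5 : ι (p y) = L y := h4
        rw [h5, hy]
      have h4 : p y = 1 := (map_eq_one_iff ι hι).1 h3
      have h5 := congrArg (fun f : Monoid.CoprodI (fun i => A i) →*
        Monoid.CoprodI (fun i => A i) => f y) h1
      have h6 : q (p y) = y := h5
      rw [← h6, h4, map_one]
  refine Pool.Agent.R684.FP.main_all hC hF hQ A S hfp ?_ ?_ ?_
  · intro i hi
    have := hfr i hi
    exact IsFreeGroup.ofMulEquiv (e i)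
  · intro i hi g
    obtain ⟨n, σ, h⟩ := hp i hi g
    refine ⟨i, hi, (ι n)⁻¹, inv_mem ⟨n, rfl⟩, fun x => ?_⟩
    rw [hmem, hmem, inv_inv]
    constructor
    · rintro ⟨y, rfl⟩
      refine ⟨σ y, ?_⟩
      rw [h y]
      group
    · rintro ⟨y, hy⟩
      refine ⟨σ.symm y, ?_⟩
      have h1 := h (σ.symm y)
      rw [MulEquiv.apply_symm_apply, hy] at h1
      have h2 : g * ι (of (σ.symm y)) * g⁻¹ = g * x * g⁻¹ := by
        rw [h1]
        group
      exact mul_left_cancel (mul_right_cancel h2)
  · intro i hi g hg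
    obtain ⟨σ, hσ⟩ := Pool.Agent.N77.CS.NF.autOf (k i) (hki i) (MulAut.conj g) 1 (by
      intro x
      have h1 := hg x
      rw [hA i] at h1
      rw [inv_one, one_mul, mul_one, MulAut.conj_apply]
      exact h1)
    refine Pool.Agent.R684.FP.cyc_real hC (A i) g hg
      ((SemidirectProduct.inl (φ := zpowersHom (MulAut (M i)) σ)).comp (e i).symm.toMonoidHom) ?_
      (SemidirectProduct.inr (Multiplicative.ofAdd 1)) ?_ (hT i hi g σ (fun x => by
        have h2 := hσ x
        rwa [MulAut.conj_apply, one_mul, inv_one, mul_one, hk, hk] at h2))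
    · exact SemidirectProduct.inl_injective.comp (e i).symm.injective
    · intro x y hxy
      obtain ⟨x', rfl⟩ := (e i).surjective x
      have h1 : y = e i (σ x') := by
        apply Subtype.ext
        have h2 := hσ x'
        rw [MulAut.conj_apply, one_mul, inv_one, mul_one, hk, hk] at h2
        rw [hxy, he, he, h2]
      show SemidirectProduct.inl ((e i).symm y) = SemidirectProduct.inr (Multiplicative.ofAdd 1) *
        SemidirectProduct.inl ((e i).symm (e i x')) * (SemidirectProduct.inr (Multiplicative.ofAdd 1))⁻¹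
      rw [← map_inv, ← SemidirectProduct.inl_aut]
      congr 1
      rw [zpowersHom_apply, toAdd_ofAdd, zpow_one, h1, MulEquiv.symm_apply_apply,
        MulEquiv.symm_apply_apply]

end Pool.Agent.Run7.h1.AF
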