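import Pool.Agent.Run7.h1.AF.Inj
import Pool.Agent.N77.CS.NF

/-!
# Automorphisms of a free product of three groups: generation

Owner helper1.
-/

set_option autoImplicit false

namespace Pool.Agent.Run7.h1.AF

open Monoid.CoprodI Pool.Agent.N77.OF

/-- the first syllables of two elements are removed -/
theorem shorter {ι : Type} {M : ι → Type} [∀ i, Group (M i)] (i : ι) (p q : Monoid.CoprodI M)
    (h : ¬ (dir i p = 1 ∧ dir i q = 1)) :
    len ((of (dir i p))⁻¹ * p) + len ((of (dir i q))⁻¹ * q) +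
      len (((of (dir i p))⁻¹ * p)⁻¹ * ((of (dir i q))⁻¹ * q)) < len p + len q + len (p⁻¹ * q) := by
  obtain ⟨a, ha⟩ : ∃ a, a = dir i p := ⟨_, rfl⟩
  obtain ⟨b, hb⟩ : ∃ b, b = dir i q := ⟨_, rfl⟩
  rw [← ha, ← hb] at h ⊢
  obtain ⟨p', hp'⟩ : ∃ p', p' = (of a)⁻¹ * p := ⟨_, rfl⟩
  obtain ⟨q', hq'⟩ : ∃ q', q' = (of b)⁻¹ * q := ⟨_, rfl⟩
  rw [← hp', ← hq']
  have hpa : a ≠ 1 → len p' + 1 = len p := by
    intro h1
    rw [hp', ha]
    exact B.len_strip i p (ha ▸ h1)
  have hqb : b ≠ 1 → len q' + 1 = len q := by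
    intro h1
    rw [hq', hb]
    exact B.len_strip i q (hb ▸ h1)
  have hle : len (p'⁻¹ * q') ≤ len p' + len q' := by
    have := B.len_mul p'⁻¹ q'
    rwa [B.len_inv] at this
  by_cases hab : a = b
  · have ha1 : a ≠ 1 := fun h1 => h ⟨h1, hab ▸ h1⟩
    have h1 : p'⁻¹ * q' = p⁻¹ * q := by
      rw [hp', hq', hab]
      group
    have h2 := hpa ha1
    have h3 := hqb (hab ▸ ha1)
    rw [h1]
    omega
  · by_cases ha1 : a = 1
    · have hb1 : b ≠ 1 := fun h1 => hab (ha1.trans h1.symm)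
      have h1 : p' = p := by rw [hp', ha1, map_one, inv_one, one_mul]
      have h2 := hqb hb1
      have h3 := len_red i _ p⁻¹ q rfl (by rw [inv_inv, ← ha, ← hb]; exact hab)
        (Or.inr (by rw [inv_inv, ← ha, ha1]))
      rw [B.len_inv] at h3
      rw [h1] at hle ⊢
      omega
    · by_cases hb1 : b = 1
      · have h1 : q' = q := by rw [hq', hb1, map_one, inv_one, one_mul]
        have h2 := hpa ha1
        have h3 := len_red i _ p⁻¹ q rfl (by rw [inv_inv, ← ha, ← hb]; exact hab)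
          (Or.inl (by rw [← hb, hb1]))
        rw [B.len_inv] at h3
        rw [h1] at hle ⊢
        omega
      · have h2 := hpa ha1
        have h3 := hqb hb1
        have h4 : p⁻¹ * q = (p⁻¹ * of b) * q' := by
          rw [hq']
          group
        have h5 : (p⁻¹ * of b)⁻¹ = of (b⁻¹ * a) * p' := by
          rw [hp', map_mul, map_inv]
          group
        have hdp : dir i p' = 1 := by
          rw [hp', ← map_inv, B.dir_of_mul, ← ha, inv_mul_cancel]
        have hdq : dir i q' = 1 := by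
          rw [hq', ← map_inv, B.dir_of_mul, ← hb, inv_mul_cancel]
        have hba : b⁻¹ * a ≠ 1 := by
          rw [Ne, inv_mul_eq_one]
          exact fun h6 => hab h6.symm
        have h6 := len_red i _ (p⁻¹ * of b) q' rfl (by
          rw [h5, B.dir_of_mul, hdp, mul_one, hdq]
          exact hba) (Or.inl hdq)
        have h7 : len (p⁻¹ * of b) = len p' + 1 := by
          rw [← B.len_inv, h5]
          exact len_cons hba hdp
        rw [← h4, h7] at h6
        omega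

variable {M : Fin 3 → Type} [∀ i, Group (M i)]

/-- the total length of a triple -/
noncomputable def tot (u : Fin 3 → Monoid.CoprodI M) : ℕ :=
  len ((u 0)⁻¹ * u 1) + len ((u 1)⁻¹ * u 2) + len ((u 2)⁻¹ * u 0)

theorem len_swap (x y : Monoid.CoprodI M) : len (x⁻¹ * y) = len (y⁻¹ * x) := by
  rw [← B.len_inv, mul_inv_rev, inv_inv]

theorem tot_eq (u : Fin 3 → Monoid.CoprodI M) (i : Fin 3) :
    tot u = len ((u i)⁻¹ * u (i + 1)) + len ((u i)⁻¹ * u (i + 2)) +
      len ((u (i + 1))⁻¹ * u (i + 2)) := by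
  have hi : i = 0 ∨ i = 1 ∨ i = 2 := by revert i; decide
  rcases hi with rfl | rfl | rfl
  · show _ = len ((u 0)⁻¹ * u 1) + len ((u 0)⁻¹ * u 2) + len ((u 1)⁻¹ * u 2)
    rw [tot, len_swap (u 2) (u 0)]
    ring
  · show _ = len ((u 1)⁻¹ * u 2) + len ((u 1)⁻¹ * u 0) + len ((u 2)⁻¹ * u 0)
    rw [tot, len_swap (u 1) (u 0)]
    ring
  · show _ = len ((u 2)⁻¹ * u 0) + len ((u 2)⁻¹ * u 1) + len ((u 0)⁻¹ * u 1)
    rw [tot, len_swap (u 2) (u 1)]
    ring

/-- GEN -/
theorem gen3 (𝒜 : ∀ i, Subgroup (MulAut (M i))) (hI : ∀ i (x : M i), MulAut.conj x ∈ 𝒜 i) (n : ℕ) :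
    ∀ (φ : MulAut (Monoid.CoprodI M)) (u : Fin 3 → Monoid.CoprodI M)
    (ψ : ∀ i, MulAut (M i)), tot u = n → (∀ i, ψ i ∈ 𝒜 i) →
    (∀ i (x : M i), φ (of x) = u i * of (ψ i x) * (u i)⁻¹) →
    ∃ (g w : Monoid.CoprodI M) (χ : ∀ i, MulAut (M i)), (∀ i, χ i ∈ 𝒜 i) ∧
      φ = MulAut.conj g * (W w * Fac χ) := by
  induction n using Nat.strong_induction_on with
  | _ n ih =>
  intro φ u ψ hn h𝒜 hφ
  by_cases hall : ∀ i, dir i ((u i)⁻¹ * u (i + 1)) = 1 ∧ dir i ((u i)⁻¹ * u (i + 2)) = 1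
  · -- all directions are trivial
    have h1 := EXA.main BASE.main (MUL.main BASE.main) (RGT.main BASE.main) (Fin 3) M φ u ψ hφ (by
      intro i j hij
      rcases f3 i j (Ne.symm hij) with rfl | rfl
      · exact (hall i).1
      · exact (hall i).2)
    refine ⟨u 0, 1, ψ, h𝒜, ?_⟩
    rw [map_one, one_mul]
    apply MulEquiv.toMonoidHom_injective
    apply Monoid.CoprodI.ext_hom
    intro j
    ext x : 1
    show φ (of x) = MulAut.conj (u 0) (Fac ψ (of x))
    rw [hφ, Fac_of, MulAut.conj_apply, h1 j 0]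
  · push Not at hall
    obtain ⟨i, hi⟩ := hall
    obtain ⟨a, ha⟩ : ∃ a, a = dir i ((u i)⁻¹ * u (i + 1)) := ⟨_, rfl⟩
    obtain ⟨b, hb⟩ : ∃ b, b = dir i ((u i)⁻¹ * u (i + 2)) := ⟨_, rfl⟩
    have hlt := shorter i ((u i)⁻¹ * u (i + 1)) ((u i)⁻¹ * u (i + 2)) (fun h => hi h.1 h.2)
    rw [← ha, ← hb] at hlt
    obtain ⟨m, hm⟩ : ∃ m, ψ i m = a * b⁻¹ := ⟨(ψ i).symm (a * b⁻¹), (ψ i).apply_symm_apply _⟩
    obtain ⟨v, hv⟩ : ∃ v : Fin 3 → Monoid.CoprodI M, v = Function.update (Function.update u (i + 1)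
      (u i * of b * (of a)⁻¹ * (u i)⁻¹ * u (i + 1))) i (u i * of b) := ⟨_, rfl⟩
    have hvi : v i = u i * of b := by rw [hv, Function.update_self]
    have hv1 : v (i + 1) = u i * of b * (of a)⁻¹ * (u i)⁻¹ * u (i + 1) := by
      rw [hv, Function.update_of_ne (Ne.symm (f1 i)), Function.update_self]
    have hv2 : v (i + 2) = u (i + 2) := by
      rw [hv, Function.update_of_ne (Ne.symm (f2 i)), Function.update_of_ne (Ne.symm (f12 i))]
    obtain ⟨ψ', hψ'⟩ : ∃ ψ' : ∀ i, MulAut (M i),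
      ψ' = Function.update ψ i (MulAut.conj b⁻¹ * ψ i) := ⟨_, rfl⟩
    have hψi : ψ' i = MulAut.conj b⁻¹ * ψ i := by rw [hψ', Function.update_self]
    have hψne : ∀ j, j ≠ i → ψ' j = ψ j := fun j hj => by rw [hψ', Function.update_of_ne hj]
    have htot : tot v < n := by
      rw [← hn, tot_eq v i, tot_eq u i]
      have e1 : (v i)⁻¹ * v (i + 1) = (of a)⁻¹ * ((u i)⁻¹ * u (i + 1)) := by
        rw [hvi, hv1]; group
      have e2 : (v i)⁻¹ * v (i + 2) = (of b)⁻¹ * ((u i)⁻¹ * u (i + 2)) := by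
        rw [hvi, hv2]; group
      have e3 : (v (i + 1))⁻¹ * v (i + 2) = ((of a)⁻¹ * ((u i)⁻¹ * u (i + 1)))⁻¹ *
          ((of b)⁻¹ * ((u i)⁻¹ * u (i + 2))) := by
        rw [hv1, hv2]; group
      have e4 : (u (i + 1))⁻¹ * u (i + 2) = ((u i)⁻¹ * u (i + 1))⁻¹ * ((u i)⁻¹ * u (i + 2)) := by
        group
      rw [e1, e2, e3, e4]
      exact hlt
    have hφm : φ (of m) = u i * of (a * b⁻¹) * (u i)⁻¹ := by rw [hφ, hm]
    obtain ⟨g, w, χ, hχ, hg⟩ := ih (tot v) htot (φ * W (of m)) v ψ' rfl (by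
      intro j
      by_cases hj : j = i
      · subst hj
        rw [hψi]
        exact mul_mem (hI _ _) (h𝒜 _)
      · rw [hψne j hj]
        exact h𝒜 j) (by
      intro j x
      rw [MulAut.mul_apply, W_of, pc_apply]
      by_cases hj : j = i + 1
      · subst hj
        rw [pcHom_of, map_mul, map_mul, map_inv, hφm, hφ, hψne _ (Ne.symm (f1 i)), hv1]
        simp only [map_mul, map_inv, mul_inv_rev, inv_inv, mul_assoc]
      · rw [pcHom_of_ne i _ hj, hφ]
        by_cases hji : j = i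
        · subst hji
          rw [hψi, hvi, MulAut.mul_apply, MulAut.conj_apply, inv_inv]
          simp only [map_mul, map_inv]
          group
        · have hj2 : j = i + 2 := by
            rcases f3 i j hji with h | h
            · exact absurd h hj
            · exact h
          subst hj2
          rw [hψne _ hji, hv2])
    refine ⟨g, w * (Fac χ (of m))⁻¹, χ, hχ, ?_⟩
    have h1 : φ = MulAut.conj g * (W w * Fac χ) * (W (of m))⁻¹ := by
      rw [← hg, mul_inv_cancel_right]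
    have h2 : Fac χ * (W (of m))⁻¹ = (W (Fac χ (of m)))⁻¹ * Fac χ := by
      rw [← fac_W]
      group
    rw [h1, map_mul, map_inv, mul_assoc, mul_assoc, h2]
    simp only [mul_assoc]

/-- REP, one direction -/
theorem rep {φ : MulAut (Monoid.CoprodI M)} (hφ : φ ∈ PAut M) :
    ∃ (u : Fin 3 → Monoid.CoprodI M) (ψ : ∀ i, MulAut (M i)),
      ∀ i (x : M i), φ (of x) = u i * of (ψ i x) * (u i)⁻¹ := by
  have h1 : ∀ i, Sym M φ i := hφ
  have h2 : ∀ i, ∃ (u : Monoid.CoprodI M) (ψ : MulAut (M i)),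
      ∀ x : M i, φ (of x) = u * of (ψ x) * u⁻¹ := by
    intro i
    obtain ⟨g, hg⟩ := h1 i
    obtain ⟨σ, hσ⟩ := Pool.Agent.N77.CS.NF.autOf (of (M := M) (i := i))
      (Monoid.CoprodI.of_injective i) φ g (by
        intro x
        constructor
        · intro hx
          have h3 : φ x ∈ (of (M := M) (i := i)).range.map φ.toMonoidHom := ⟨x, hx, rfl⟩
          rw [hg] at h3
          obtain ⟨y, hy, hyx⟩ := h3
          have h4 : g * y * g⁻¹ = φ x := hyx
          have h5 : g⁻¹ * φ x * g = y := by rw [← h4]; group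
          rw [h5]
          exact hy
        · intro hx
          have h3 : φ x ∈ (of (M := M) (i := i)).range.map (MulAut.conj g).toMonoidHom :=
            ⟨_, hx, by
              show g * (g⁻¹ * φ x * g) * g⁻¹ = φ x
              group⟩
          rw [← hg] at h3
          obtain ⟨y, hy, hyx⟩ := h3
          have h4 : y = x := φ.injective hyx
          rwa [h4] at hy)
    exact ⟨g, σ, hσ⟩
  choose u ψ h3 using h2
  exact ⟨u, ψ, h3⟩

/-- the automorphisms which restrict on each factor to the product of an element of `𝒜 i` and a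
conjugation of the free product -/
def PA {ι : Type} {M : ι → Type} [∀ i, Group (M i)] (𝒜 : ∀ i, Subgroup (MulAut (M i))) :
    Subgroup (MulAut (Monoid.CoprodI M)) where
  carrier := {φ | ∀ i, ∃ (g : Monoid.CoprodI M), ∃ ψ ∈ 𝒜 i, ∀ x : M i,
    φ (of x) = g * of (ψ x) * g⁻¹}
  one_mem' := fun i => ⟨1, 1, one_mem _, fun x => by simp⟩
  mul_mem' := by
    intro φ φ' h h' i
    obtain ⟨g, ψ, hψ, e⟩ := h i
    obtain ⟨g', ψ', hψ', e'⟩ := h' i
    refine ⟨φ g' * g, ψ * ψ', mul_mem hψ hψ', fun x => ?_⟩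
    rw [MulAut.mul_apply, e', map_mul, map_mul, map_inv, e, MulAut.mul_apply]
    group
  inv_mem' := by
    intro φ h i
    obtain ⟨g, ψ, hψ, e⟩ := h i
    refine ⟨φ⁻¹ g⁻¹, ψ⁻¹, inv_mem hψ, fun x => ?_⟩
    have h1 : φ (φ⁻¹ g⁻¹ * of (ψ⁻¹ x) * (φ⁻¹ g⁻¹)⁻¹) = of x := by
      have h2 : φ (φ⁻¹ g⁻¹) = g⁻¹ := MulAut.apply_inv_self _ φ g⁻¹
      rw [map_mul, map_mul, map_inv φ, h2, e, MulAut.apply_inv_self]
      group
    rw [← h1, MulAut.inv_apply_self]

theorem PA_top : PA (fun i => (⊤ : Subgroup (MulAut (M i)))) = PAut M := by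
  ext φ
  constructor
  · intro h i
    obtain ⟨g, ψ, _, e⟩ := h i
    refine ⟨g, ?_⟩
    ext y
    constructor
    · rintro ⟨_, ⟨x, rfl⟩, rfl⟩
      exact ⟨of (ψ x), ⟨_, rfl⟩, (e x).symm⟩
    · rintro ⟨_, ⟨x, rfl⟩, rfl⟩
      refine ⟨of (ψ.symm x), ⟨_, rfl⟩, ?_⟩
      show φ (of (ψ.symm x)) = _
      rw [e, MulEquiv.apply_symm_apply]
      rfl
  · intro h
    obtain ⟨u, ψ, e⟩ := rep h
    exact fun i => ⟨u i, ψ i, Subgroup.mem_top _, e i⟩

theorem gen {𝒜 : ∀ i, Subgroup (MulAut (M i))} (hI : ∀ i (x : M i), MulAut.conj x ∈ 𝒜 i)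
    {φ : MulAut (Monoid.CoprodI M)} (hφ : φ ∈ PA 𝒜) :
    ∃ (g w : Monoid.CoprodI M) (χ : ∀ i, MulAut (M i)), (∀ i, χ i ∈ 𝒜 i) ∧
      φ = MulAut.conj g * (W w * Fac χ) := by
  choose u ψ h𝒜 h using hφ
  exact gen3 𝒜 hI _ φ u ψ rfl h𝒜 h

end Pool.Agent.Run7.h1.AF
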