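import Pool.Agent.Run7.h1.AF.Len

/-!
# Automorphisms of a free product of three groups: the partial conjugations are independent

Owner helper1.
-/

set_option autoImplicit false

namespace Pool.Agent.Run7.h1.AF

open Monoid.CoprodI Pool.Agent.N77.OF

variable {M : Fin 3 → Type} [∀ i, Group (M i)]

theorem f1 (i : Fin 3) : i ≠ i + 1 := by
  revert i; decide

theorem f2 (i : Fin 3) : i ≠ i + 2 := by
  revert i; decide

theorem f12 (i : Fin 3) : i + 1 ≠ i + 2 := by
  revert i; decide

theorem f3 (i l : Fin 3) (h : l ≠ i) : l = i + 1 ∨ l = i + 2 := by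
  revert i l; decide

theorem a11 (i : Fin 3) : i + 1 + 1 = i + 2 := by
  revert i; decide

theorem a12 (i : Fin 3) : i + 1 + 2 = i := by
  revert i; decide

theorem a21 (i : Fin 3) : i + 2 + 1 = i := by
  revert i; decide

theorem a22 (i : Fin 3) : i + 2 + 2 = i + 1 := by
  revert i; decide

theorem pc_inv (i : Fin 3) (m : M i) : (pc i m)⁻¹ = pc (M := M) i m⁻¹ := (map_inv (pc i) m).symm

theorem act_one : act (M := M) 1 = 1 := map_one act

theorem act_mul (w w' : Monoid.CoprodI M) (u : Fin 3 → Monoid.CoprodI M) :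
    act (w * w') u = act w (act w' u) := by
  rw [map_mul, Equiv.Perm.mul_apply]

/-- TRI -/
theorem tri (w : Monoid.CoprodI M) : ∀ (j : Fin 3) (x : M j),
    (W w)⁻¹ (of x) = act w 1 j * of x * (act w 1 j)⁻¹ := by
  induction w using Monoid.CoprodI.induction_left with
  | one =>
    intro j x
    rw [act_one, map_one]
    simp
  | mul m w ih =>
    rename_i i
    intro j x
    rw [map_mul, mul_inv_rev, W_of, pc_inv, MulAut.mul_apply, pc_apply, act_mul, act_of]
    by_cases h : j = i + 1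
    · subst h
      have h1 : pcHom i m⁻¹ (of x) = of m * of x * (of m)⁻¹ := by
        rw [pcHom_of, map_inv, inv_inv]
      rw [h1, map_mul, map_mul, map_inv ((W w)⁻¹), ih, ih, mv_same]
      group
    · rw [pcHom_of_ne i _ h, ih, mv_ne i _ _ h]

/-- at most one element of a triple is in the middle -/
theorem not_two {i l : Fin 3} (h : l ≠ i) {u : Fin 3 → Monoid.CoprodI M} (hl : Mid l u) :
    dir i ((u i)⁻¹ * u (i + 1)) = dir i ((u i)⁻¹ * u (i + 2)) := by
  rcases f3 i l h with rfl | rfl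
  · have h1 : dir (i + 1) ((u (i + 1))⁻¹ * u (i + 2)) ≠ dir (i + 1) ((u (i + 1))⁻¹ * u i) := by
      have := hl
      rw [Mid, a11, a12] at this
      exact this
    have h2 : (u i)⁻¹ * u (i + 2) = ((u i)⁻¹ * u (i + 1)) * ((u (i + 1))⁻¹ * u (i + 2)) := by
      group
    have h4 := dir_mul (g := (u i)⁻¹ * u (i + 1)) (h := (u (i + 1))⁻¹ * u (i + 2)) h (by
      rw [mul_inv_rev, inv_inv]
      exact h1.symm)
    rw [h2, h4]
  · have h1 : dir (i + 2) ((u (i + 2))⁻¹ * u i) ≠ dir (i + 2) ((u (i + 2))⁻¹ * u (i + 1)) := by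
      have := hl
      rw [Mid, a21, a22] at this
      exact this
    have h2 : (u i)⁻¹ * u (i + 1) = ((u i)⁻¹ * u (i + 2)) * ((u (i + 2))⁻¹ * u (i + 1)) := by
      group
    have h4 := dir_mul (g := (u i)⁻¹ * u (i + 2)) (h := (u (i + 2))⁻¹ * u (i + 1)) h (by
      rw [mul_inv_rev, inv_inv]
      exact h1)
    rw [h2, h4]

/-- ping-pong -/
theorem pp (n : ℕ) : ∀ (w : Monoid.CoprodI M) (i : Fin 3), len w = n → dir i w ≠ 1 →
    Mid i (act w 1) := by
  induction n with
  | zero =>
    intro w i hw hd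
    exact absurd (by rw [(B.len_one w).1 hw, B.dir_one]) hd
  | succ n ih =>
    intro w i hw hd
    obtain ⟨x, hx⟩ : ∃ x, x = dir i w := ⟨_, rfl⟩
    obtain ⟨w', hw'⟩ : ∃ w', w' = (of x)⁻¹ * w := ⟨_, rfl⟩
    rw [← hx] at hd
    have hww : w = of x * w' := by rw [hw', mul_inv_cancel_left]
    have hd' : dir i w' = 1 := by
      rw [hw', ← map_inv, B.dir_of_mul, ← hx, inv_mul_cancel]
    have hlw : len w = len w' + 1 := by
      rw [hww]
      exact len_cons hd hd'
    have key : dir i ((act w' 1 i)⁻¹ * act w' 1 (i + 1)) =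
        dir i ((act w' 1 i)⁻¹ * act w' 1 (i + 2)) := by
      by_cases hw1 : w' = 1
      · rw [hw1, act_one]
        simp
      · obtain ⟨l, hl⟩ := exists_dir hw1
        have hli : l ≠ i := by
          rintro rfl
          exact hl hd'
        exact not_two hli (ih w' l (by omega) hl)
    rw [hww, act_mul, act_of, Mid, mv_same, mv_ne i _ _ (f1 i),
      mv_ne i _ _ (Ne.symm (f12 i))]
    have h1 : (act w' 1 i)⁻¹ * (act w' 1 i * of x * (act w' 1 i)⁻¹ * act w' 1 (i + 1)) =
        of x * ((act w' 1 i)⁻¹ * act w' 1 (i + 1)) := by group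
    rw [h1, B.dir_of_mul, key]
    intro h2
    exact hd (mul_eq_right.1 h2)

theorem Fac_inj {ψ : ∀ i, MulAut (M i)} (h : Fac ψ = 1) : ψ = 1 := by
  funext i
  ext x
  have h1 := congrArg (fun φ : MulAut (Monoid.CoprodI M) => φ (of x)) h
  simp only [Fac_of, MulAut.one_apply] at h1
  exact Monoid.CoprodI.of_injective i h1

/-- INJ -/
theorem inj3 (hM : ∀ i, Nontrivial (M i)) (w : Monoid.CoprodI M) (ψ : ∀ i, MulAut (M i))
    (g : Monoid.CoprodI M) (h : W w * Fac ψ = MulAut.conj g) : w = 1 ∧ ψ = 1 ∧ g = 1 := by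
  obtain ⟨k, hk⟩ : ∃ k, k = Fac ψ g := ⟨_, rfl⟩
  -- the conjugating elements
  have h1 : ∀ (j : Fin 3) (x : M j), act w 1 j * of x * (act w 1 j)⁻¹ = k⁻¹ * of (ψ j x) * k := by
    intro j x
    rw [← tri]
    have h2 : (W w)⁻¹ = Fac ψ * (MulAut.conj g)⁻¹ := by
      rw [← h, mul_inv_rev, mul_inv_cancel_left]
    rw [h2, MulAut.mul_apply, ← map_inv, MulAut.conj_apply, inv_inv, map_mul, map_mul, map_inv,
      Fac_of, hk]
  have h2 : ∀ j, ∃ n : M j, k * act w 1 j = of n := by
    intro j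
    obtain ⟨x, hx⟩ := exists_ne (1 : M j)
    refine nrm (m := x) (m' := ψ j x) hx ?_
    have h3 := h1 j x
    rw [mul_inv_rev]
    calc k * act w 1 j * of x * ((act w 1 j)⁻¹ * k⁻¹)
        = k * (act w 1 j * of x * (act w 1 j)⁻¹) * k⁻¹ := by group
      _ = of (ψ j x) := by rw [h3]; group
  choose n hn using h2
  have h3 : ∀ i j, i ≠ j → dir i ((act w 1 i)⁻¹ * act w 1 j) = (n i)⁻¹ := by
    intro i j hij
    have h4 : (act w 1 i)⁻¹ * act w 1 j = of (n i)⁻¹ * of (n j) := by
      rw [map_inv, ← hn, ← hn]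
      group
    rw [h4, B.dir_of_mul, dir_of_ne hij, mul_one]
  have hw : w = 1 := by
    by_contra hw
    obtain ⟨i, hi⟩ := exists_dir hw
    have h4 := pp _ w i rfl hi
    apply h4
    rw [h3 i _ (f1 i), h3 i _ (f2 i)]
  have h4 : ∀ j, k = of (n j) := by
    intro j
    have h5 := hn j
    rw [hw, act_one] at h5
    simpa using h5
  have h5 : k = 1 := by
    apply B.eq_one
    intro i
    rw [h4 (i + 1)]
    exact dir_of_ne (f1 i) _
  have h6 : g = 1 := by
    rw [h5] at hk
    exact ((map_eq_one_iff (Fac ψ) (Fac ψ).injective).1 hk.symm)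
  refine ⟨hw, ?_, h6⟩
  rw [hw, h6, map_one, map_one, one_mul] at h
  exact Fac_inj h

/-- FW -/
theorem fac_W (ψ : ∀ i, MulAut (M i)) (w : Monoid.CoprodI M) :
    Fac ψ * W w * (Fac ψ)⁻¹ = W (Fac ψ w) := by
  induction w using Monoid.CoprodI.induction_left with
  | one => rw [map_one, map_one, map_one]; group
  | mul m w ih =>
    rename_i i
    rw [map_mul, map_mul, map_mul, ← ih]
    have h1 : Fac ψ * W (of m) = W (Fac ψ (of m)) * Fac ψ := by
      rw [Fac_of, W_of, W_of]
      apply MulEquiv.toMonoidHom_injective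
      apply Monoid.CoprodI.ext_hom
      intro j
      ext x : 1
      show Fac ψ (pcHom i m (of x)) = pcHom i (ψ i m) (Fac ψ (of x))
      rw [Fac_of]
      by_cases h : j = i + 1
      · subst h
        rw [pcHom_of, pcHom_of, map_mul, map_mul, map_inv, Fac_of, Fac_of]
      · rw [pcHom_of_ne i _ h, pcHom_of_ne i _ h, Fac_of]
    rw [← mul_assoc, ← mul_assoc, h1]
    group

end Pool.Agent.Run7.h1.AF
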