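import Pool.Agent.N77.OF.EXA
import Pool.Agent.N77.OF.BASE
import Pool.Agent.N77.OF.MUL
import Pool.Agent.N77.OF.RGT

/-!
# Automorphisms of a free product of three groups: lengths and malnormality

Owner helper1.
-/

set_option autoImplicit false

namespace Pool.Agent.Run7.h1.AF

open Monoid.CoprodI Pool.Agent.N77.OF

variable {ι : Type} {M : ι → Type} [∀ i, Group (M i)]

theorem B : Base ι M := BASE.main ι M

theorem dir_mul {i j : ι} {g h : Monoid.CoprodI M} (hij : i ≠ j) (hd : dir i g⁻¹ ≠ dir i h) :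
    dir j (g * h) = dir j g := MUL.main BASE.main ι M i j g h hij hd

theorem dir_rgt {k l : ι} {g : Monoid.CoprodI M} (n : M l)
    (h : k = l → g ∉ (of (M := M) (i := l)).range) : dir k (g * of n) = dir k g :=
  RGT.main BASE.main ι M k l g n h

theorem dir_of {i : ι} (x : M i) : dir i (of x) = x := RGT.dir_of B x

theorem dir_of_ne {k l : ι} (h : k ≠ l) (y : M l) : dir k (of y) = 1 := RGT.dir_of_ne B h y

theorem len_cons {i : ι} {x : M i} {g : Monoid.CoprodI M} (hx : x ≠ 1) (hg : dir i g = 1) :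
    len (of x * g) = len g + 1 := by
  have h1 : dir i (of x * g) = x := by rw [B.dir_of_mul, hg, mul_one]
  have h2 := B.len_strip i (of x * g) (by rw [h1]; exact hx)
  rw [h1, inv_mul_cancel_left] at h2
  exact h2.symm

theorem len_of_le {i : ι} (x : M i) : len (of x) ≤ 1 := by
  by_cases hx : x = 1
  · rw [hx, map_one, (B.len_one _).2 rfl]
    exact Nat.zero_le _
  · have h1 := len_cons (g := 1) hx (B.dir_one i)
    rw [mul_one, (B.len_one _).2 rfl] at h1
    exact h1.le

theorem exists_dir {g : Monoid.CoprodI M} (hg : g ≠ 1) : ∃ k, dir k g ≠ 1 := by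
  by_contra h
  push Not at h
  exact hg (B.eq_one g h)

/-- lengths of reduced products -/
theorem len_red (i : ι) : ∀ (n : ℕ) (g h : Monoid.CoprodI M), len g = n → dir i g⁻¹ ≠ dir i h →
    (dir i h = 1 ∨ dir i g⁻¹ = 1) → len (g * h) = len g + len h := by
  intro n
  induction n with
  | zero =>
    intro g h hg _ _
    have h1 : g = 1 := (B.len_one g).1 hg
    rw [h1, one_mul, (B.len_one _).2 rfl, zero_add]
  | succ n ih =>
    intro g h hg hne hor
    have hg1 : g ≠ 1 := by
      intro h1
      rw [h1, (B.len_one _).2 rfl] at hg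
      omega
    obtain ⟨k, hk⟩ := exists_dir hg1
    obtain ⟨x, hx⟩ : ∃ x, x = dir k g := ⟨_, rfl⟩
    obtain ⟨g', hg'⟩ : ∃ g', g' = (of x)⁻¹ * g := ⟨_, rfl⟩
    rw [← hx] at hk
    have hgg : g = of x * g' := by rw [hg', mul_inv_cancel_left]
    have hd' : dir k g' = 1 := by
      rw [hg', ← map_inv, B.dir_of_mul, ← hx, inv_mul_cancel]
    have hlg : len g = len g' + 1 := by
      rw [hgg]
      exact len_cons hk hd'
    have hlg' : len g' = n := by omega
    -- it suffices that `of x` does not cancel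
    suffices hs : dir k (g' * h) = 1 ∧ len (g' * h) = len g' + len h by
      rw [hgg, mul_assoc, len_cons hk hs.1, len_cons hk hd', hs.2]
      ring
    by_cases hg'1 : g' = 1
    · rw [hg'1, one_mul, (B.len_one _).2 rfl, zero_add]
      refine ⟨?_, rfl⟩
      have hgx : g = of x := by rw [hgg, hg'1, mul_one]
      by_cases hki : k = i
      · subst hki
        have h1 : dir k g⁻¹ = x⁻¹ := by rw [hgx, ← map_inv, dir_of]
        rcases hor with h2 | h2
        · exact h2
        · rw [h1, inv_eq_one] at h2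
          exact absurd h2 hk
      · have h1 : dir i g⁻¹ = 1 := by
          rw [hgx, ← map_inv]
          exact dir_of_ne (Ne.symm hki) _
        rw [h1] at hne
        exact B.dir_ne i k h hki (Ne.symm hne)
    · have hdg : dir i g⁻¹ = dir i g'⁻¹ := by
        have h1 : g⁻¹ = g'⁻¹ * of x⁻¹ := by rw [hgg, mul_inv_rev, map_inv]
        rw [h1]
        refine dir_rgt _ fun hik hmem => ?_
        obtain ⟨y, hy⟩ := hmem
        have h2 : g' = of y⁻¹ := by rw [map_inv, hy, inv_inv]
        rw [h2, dir_of, inv_eq_one] at hd'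
        rw [hd', inv_one, map_one] at h2
        exact hg'1 h2
      rw [hdg] at hne hor
      refine ⟨?_, ih g' h hlg' hne hor⟩
      obtain ⟨l, hl⟩ := exists_dir hg'1
      have hlk : l ≠ k := by
        rintro rfl
        exact hl hd'
      by_cases hli : l = i
      · subst hli
        rw [dir_mul hlk hne]
        exact hd'
      · have h1 : dir l (g' * h) ≠ 1 := by
          rw [dir_mul (Ne.symm hli) hne]
          exact hl
        exact B.dir_ne l k _ (Ne.symm hlk) h1

/-- the factors are malnormal -/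
theorem nrm {j : ι} {h : Monoid.CoprodI M} {m m' : M j} (hm : m ≠ 1)
    (he : h * of m * h⁻¹ = of m') : ∃ n : M j, h = of n := by
  obtain ⟨n, hn⟩ : ∃ n, n = dir j h⁻¹ := ⟨_, rfl⟩
  obtain ⟨r, hr⟩ : ∃ r, r = (of n)⁻¹ * h⁻¹ := ⟨_, rfl⟩
  have hdr : dir j r = 1 := by
    rw [hr, ← map_inv, B.dir_of_mul, ← hn, inv_mul_cancel]
  have hm2 : n⁻¹ * m * n ≠ 1 := by
    intro h1
    apply hm
    have h2 : m = n * (n⁻¹ * m * n) * n⁻¹ := by group
    rw [h2, h1]
    group
  have h1 : r⁻¹ * (of (n⁻¹ * m * n) * r) = of m' := by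
    rw [← he, hr]
    simp only [map_mul, map_inv]
    group
  have h2 : len (of (n⁻¹ * m * n) * r) = len r + 1 := len_cons hm2 hdr
  have h3 : dir j (of (n⁻¹ * m * n) * r) = n⁻¹ * m * n := by
    rw [B.dir_of_mul, hdr, mul_one]
  have h4 := len_red j _ r⁻¹ (of (n⁻¹ * m * n) * r) rfl (by
    rw [inv_inv, hdr, h3]
    exact Ne.symm hm2) (Or.inr (by rw [inv_inv, hdr]))
  rw [h1, h2] at h4
  have h5 := len_of_le m'
  have h6 : len r = 0 := by omega
  have h7 : r = 1 := (B.len_one r).1 h6
  refine ⟨n⁻¹, ?_⟩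
  rw [hr, inv_mul_eq_one] at h7
  rw [map_inv, h7, inv_inv]

end Pool.Agent.Run7.h1.AF
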