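import Pool.Agent.Run7.h1.AF.Gen
import Pool.Agent.Run7.h1.AF.Ext

/-!
# Automorphism groups of free products of three groups

Owner helper1.
-/

set_option autoImplicit false

namespace Pool.Agent.Run7.h1.AF

open Monoid.CoprodI Pool.Agent.N77.OF
open Pool.Agent.Y110.FJ (ClosedE)
open Pool.Agent.R684.FP (FbC)
open Pool.Agent.R941.FJ (C_equiv C_le)

variable {C : ∀ (G : Type) [Group G], Prop}

theorem C_fin (hC : Pool.Agent.Y462.SS.Closed C) {G : Type} [Group G] {P H : Subgroup G} (hP : C P)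
    (h : P.relIndex H ≠ 0) : C H := by
  refine hC.finiteIndex H (P.subgroupOf H) ⟨h⟩ ?_
  refine hC.of_injective _ P
    { toFun := fun x => ⟨x.1.1, x.2⟩
      map_one' := rfl
      map_mul' := fun _ _ => rfl } ?_ hP
  intro x y hxy
  exact Subtype.ext (Subtype.ext (congrArg (fun z : P => (z : G)) hxy))

/-- if the value of an automorphism is a conjugate, then the automorphism is changed by an inner one -/
theorem mem_of_conj {ι : Type} {M : ι → Type} [∀ i, Group (M i)] {i : ι} [Nontrivial (M i)]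
    {A : Subgroup (MulAut (M i))} (hI : ∀ x : M i, MulAut.conj x ∈ A) {ψ σ : MulAut (M i)}
    (hψ : ψ ∈ A) {a : Monoid.CoprodI M} (h : ∀ x : M i, a * of (ψ x) * a⁻¹ = of (σ x)) : σ ∈ A := by
  obtain ⟨x, hx⟩ := exists_ne (1 : M i)
  obtain ⟨n, hn⟩ := nrm (m := ψ x) (m' := σ x)
    (fun h1 => hx ((map_eq_one_iff ψ ψ.injective).1 h1)) (h x)
  have h1 : σ = MulAut.conj n * ψ := by
    ext y
    apply Monoid.CoprodI.of_injective (M := M) i
    rw [← h y, hn, MulAut.mul_apply, MulAut.conj_apply]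
    simp only [map_mul, map_inv]
  rw [h1]
  exact mul_mem (hI n) hψ

variable {M : Fin 3 → Type} [∀ i, Group (M i)]

section sg

variable (𝒜 : ∀ i, Subgroup (MulAut (M i)))

/-- the product of the groups of automorphisms acts on the free product -/
noncomputable def Fa : (∀ i, 𝒜 i) →* MulAut (Monoid.CoprodI M) :=
  Fac.comp { toFun := fun f i => (f i : MulAut (M i)), map_one' := rfl, map_mul' := fun _ _ => rfl }

theorem Fa_apply (ψ : ∀ i, 𝒜 i) : Fa 𝒜 ψ = Fac fun i => (ψ i : MulAut (M i)) := rfl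

/-- the semidirect product -/
abbrev SG : Type := Monoid.CoprodI M ⋊[Fa 𝒜] (∀ i, 𝒜 i)

theorem C_SG (hC : ClosedE C) (hF : FbC C) (hM : ∀ i, Nontrivial (M i))
    (hI : ∀ i (x : M i), MulAut.conj x ∈ 𝒜 i) (hA : ∀ i, C (𝒜 i))
    (hT : ∀ (i : Fin 3), ∀ σ ∈ 𝒜 i, C (M i ⋊[zpowersHom (MulAut (M i)) σ] Multiplicative ℤ)) :
    C (SG 𝒜) := by
  obtain ⟨ι, hι⟩ : ∃ ι : Monoid.CoprodI M →* SG 𝒜, ι = SemidirectProduct.inl := ⟨_, rfl⟩
  have hr : ι.range = (SemidirectProduct.rightHom : SG 𝒜 →* _).ker := by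
    rw [hι]
    exact SemidirectProduct.range_inl_eq_ker_rightHom
  have hn : ι.range.Normal := by
    rw [hr]
    infer_instance
  have hconj : ∀ (i : Fin 3) (g : SG 𝒜) (x : M i), g * ι (of x) * g⁻¹ =
      ι g.left * ι (of ((g.right i : MulAut (M i)) x)) * (ι g.left)⁻¹ := by
    intro i g x
    rw [hι]
    have h1 : g = SemidirectProduct.inl g.left * SemidirectProduct.inr g.right :=
      (SemidirectProduct.inl_left_mul_inr_right g).symm
    have h2 : (SemidirectProduct.inl (of ((g.right i : MulAut (M i)) x)) : SG 𝒜) =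
        SemidirectProduct.inr g.right * SemidirectProduct.inl (of x) *
          SemidirectProduct.inr g.right⁻¹ := by
      rw [← SemidirectProduct.inl_aut, Fa_apply, Fac_of]
    rw [h2]
    calc g * SemidirectProduct.inl (of x) * g⁻¹
        = (SemidirectProduct.inl g.left * SemidirectProduct.inr g.right) *
          SemidirectProduct.inl (of x) *
          (SemidirectProduct.inl g.left * SemidirectProduct.inr g.right)⁻¹ := by rw [← h1]
      _ = _ := by
        rw [map_inv]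
        group
  have hinj : Function.Injective ι := hι ▸ SemidirectProduct.inl_injective
  refine fpx hC hF Set.univ ι hinj ?_
    (fun i hi => absurd (Set.mem_univ i) hi) (fun i _ g σ h => ?_) ?_
  · exact C_equiv hC.base ((QuotientGroup.quotientMulEquivOfEq hr).trans
      (QuotientGroup.quotientKerEquivOfSurjective SemidirectProduct.rightHom
        SemidirectProduct.rightHom_surjective)) (C_pi hC.base _ hA)
  · have := hM i
    refine hT i σ (mem_of_conj (hI i) (g.right i).2 (a := g.left) fun x => ?_)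
    apply hinj
    rw [map_mul, map_mul, map_inv, ← hconj, h]
  · intro i _ g
    exact ⟨g.left, g.right i, fun x => hconj i g x⟩

end sg

/-- the inner automorphisms -/
abbrev Inn (N : Type) [Group N] : Subgroup (MulAut N) := (MulAut.conj : N →* MulAut N).range

instance (N : Type) [Group N] : (Inn N).Normal := by
  refine ⟨?_⟩
  rintro _ ⟨n, rfl⟩ φ
  refine ⟨φ n, ?_⟩
  ext x
  simp [MulAut.conj_apply]

variable (𝒜 : ∀ i, Subgroup (MulAut (M i)))

/-- the homomorphism from the semidirect product to the automorphism group -/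
noncomputable def Ph : SG 𝒜 →* MulAut (Monoid.CoprodI M) :=
  SemidirectProduct.lift W (Fa 𝒜) (by
    intro ψ
    refine MonoidHom.ext fun w => ?_
    show W (Fa 𝒜 ψ w) = Fa 𝒜 ψ * W w * (Fa 𝒜 ψ)⁻¹
    rw [Fa_apply]
    exact (fac_W _ w).symm)

theorem Ph_mk (w : Monoid.CoprodI M) (ψ : ∀ i, 𝒜 i) :
    Ph 𝒜 ⟨w, ψ⟩ = W w * Fac fun i => (ψ i : MulAut (M i)) := rfl

/-- the homomorphism from the semidirect product to the outer automorphism group -/
noncomputable def Th : SG 𝒜 →* MulAut (Monoid.CoprodI M) ⧸ Inn (Monoid.CoprodI M) :=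
  (QuotientGroup.mk' (Inn (Monoid.CoprodI M))).comp (Ph 𝒜)

theorem Th_inj (hM : ∀ i, Nontrivial (M i)) : Function.Injective (Th 𝒜) := by
  rw [injective_iff_map_eq_one]
  rintro ⟨w, ψ⟩ h
  obtain ⟨g, hg⟩ := (QuotientGroup.eq_one_iff _).1
    (show (QuotientGroup.mk (Ph 𝒜 ⟨w, ψ⟩) :
      MulAut (Monoid.CoprodI M) ⧸ Inn (Monoid.CoprodI M)) = 1 from h)
  rw [Ph_mk] at hg
  obtain ⟨h1, h2, _⟩ := inj3 hM w _ g hg.symm
  have h3 : ψ = 1 := by
    funext i
    exact Subtype.ext (congrFun h2 i)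
  rw [h1, h3]
  rfl

theorem PA_map (hI : ∀ i (x : M i), MulAut.conj x ∈ 𝒜 i) :
    (PA 𝒜).map (QuotientGroup.mk' (Inn (Monoid.CoprodI M))) ≤ (Th 𝒜).range := by
  rintro _ ⟨φ, hφ, rfl⟩
  obtain ⟨g, w, χ, hχ, h⟩ := gen hI hφ
  refine ⟨⟨w, fun i => ⟨χ i, hχ i⟩⟩, ?_⟩
  show (QuotientGroup.mk (Ph 𝒜 ⟨w, fun i => ⟨χ i, hχ i⟩⟩) :
    MulAut (Monoid.CoprodI M) ⧸ Inn (Monoid.CoprodI M)) = QuotientGroup.mk φ
  have h1 : (QuotientGroup.mk (MulAut.conj g) :
      MulAut (Monoid.CoprodI M) ⧸ Inn (Monoid.CoprodI M)) = 1 :=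
    (QuotientGroup.eq_one_iff _).2 ⟨g, rfl⟩
  rw [Ph_mk, h, QuotientGroup.mk_mul (Inn (Monoid.CoprodI M)) (MulAut.conj g), h1, one_mul]

theorem C_out (hC : ClosedE C) (hF : FbC C) (hM : ∀ i, Nontrivial (M i))
    (hI : ∀ i (x : M i), MulAut.conj x ∈ 𝒜 i) (hA : ∀ i, C (𝒜 i))
    (hT : ∀ (i : Fin 3), ∀ σ ∈ 𝒜 i, C (M i ⋊[zpowersHom (MulAut (M i)) σ] Multiplicative ℤ)) :
    C ↥((PA 𝒜).map (QuotientGroup.mk' (Inn (Monoid.CoprodI M)))) :=
  C_le hC.base (PA_map 𝒜 hI) (C_equiv hC.base (MonoidHom.ofInjective (Th_inj 𝒜 hM)).symm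
    (C_SG 𝒜 hC hF hM hI hA hT))

theorem conj_mem (hI : ∀ i (x : M i), MulAut.conj x ∈ 𝒜 i) (n : Monoid.CoprodI M) :
    MulAut.conj n ∈ PA 𝒜 := fun i => ⟨n, 1, one_mem _, fun x => rfl⟩

theorem C_PA (hC : ClosedE C) (hF : FbC C) (hM : ∀ i, Nontrivial (M i))
    (hI : ∀ i (x : M i), MulAut.conj x ∈ 𝒜 i) (hA : ∀ i, C (𝒜 i))
    (hT : ∀ (i : Fin 3), ∀ σ ∈ 𝒜 i, C (M i ⋊[zpowersHom (MulAut (M i)) σ] Multiplicative ℤ)) :
    C ↥(PA 𝒜) := by
  have hcinj : Function.Injective (MulAut.conj : Monoid.CoprodI M →* MulAut (Monoid.CoprodI M)) := by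
    rw [injective_iff_map_eq_one]
    intro n hn
    exact (inj3 hM 1 1 n (by rw [map_one, map_one, one_mul, hn])).2.2
  obtain ⟨ι, hι⟩ : ∃ ι : Monoid.CoprodI M →* PA 𝒜, ∀ n, (ι n : MulAut (Monoid.CoprodI M)) =
    MulAut.conj n := ⟨MulAut.conj.codRestrict _ (conj_mem 𝒜 hI), fun _ => rfl⟩
  have hinj : Function.Injective ι := by
    intro a b hab
    apply hcinj
    rw [← hι, ← hι, hab]
  obtain ⟨f, hf⟩ : ∃ f : PA 𝒜 →* MulAut (Monoid.CoprodI M) ⧸ Inn (Monoid.CoprodI M),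
    f = (QuotientGroup.mk' (Inn (Monoid.CoprodI M))).comp (PA 𝒜).subtype := ⟨_, rfl⟩
  have hk : ι.range = f.ker := by
    ext φ
    rw [MonoidHom.mem_ker, hf]
    constructor
    · rintro ⟨n, rfl⟩
      exact (QuotientGroup.eq_one_iff _).2 ⟨n, (hι n).symm⟩
    · intro h
      obtain ⟨n, hn⟩ := (QuotientGroup.eq_one_iff _).1 h
      exact ⟨n, Subtype.ext ((hι n).trans hn)⟩
  have hn : ι.range.Normal := by
    rw [hk]
    infer_instance
  have hconj : ∀ (φ : PA 𝒜) (y : Monoid.CoprodI M),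
      φ * ι y * φ⁻¹ = ι ((φ : MulAut (Monoid.CoprodI M)) y) := by
    intro φ y
    apply Subtype.ext
    have h1 : ((φ * ι y * φ⁻¹ : PA 𝒜) : MulAut (Monoid.CoprodI M)) =
        φ * MulAut.conj y * (φ : MulAut (Monoid.CoprodI M))⁻¹ := by
      rw [← hι]
      rfl
    rw [h1, hι]
    ext z
    simp [MulAut.conj_apply]
  refine fpx hC hF Set.univ ι hinj ?_ (fun i hi => absurd (Set.mem_univ i) hi)
    (fun i _ φ σ h => ?_) ?_
  · refine C_equiv hC.base ((QuotientGroup.quotientMulEquivOfEq hk).trans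
      (QuotientGroup.quotientKerEquivRange f)) (C_le hC.base ?_ (C_out 𝒜 hC hF hM hI hA hT))
    rintro _ ⟨φ, rfl⟩
    rw [hf]
    exact ⟨φ, φ.2, rfl⟩
  · obtain ⟨g, ψ, hψ, e⟩ := φ.2 i
    have := hM i
    refine hT i σ (mem_of_conj (hI i) hψ (a := g) fun x => ?_)
    have h1 := h x
    rw [hconj] at h1
    rw [← e]
    exact hinj h1
  · intro i _ φ
    obtain ⟨g, ψ, hψ, e⟩ := φ.2 i
    refine ⟨g, ψ, fun x => ?_⟩
    rw [hconj, e, map_mul, map_mul, map_inv]

/-- the semidirect product of the free product and the group of automorphisms -/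
theorem C_hol (hC : ClosedE C) (hF : FbC C) (hM : ∀ i, Nontrivial (M i))
    (hI : ∀ i (x : M i), MulAut.conj x ∈ 𝒜 i) (hA : ∀ i, C (𝒜 i))
    (hT : ∀ (i : Fin 3), ∀ σ ∈ 𝒜 i, C (M i ⋊[zpowersHom (MulAut (M i)) σ] Multiplicative ℤ)) :
    C (Monoid.CoprodI M ⋊[(PA 𝒜).subtype] PA 𝒜) := by
  obtain ⟨ι, hι⟩ : ∃ ι : Monoid.CoprodI M →* Monoid.CoprodI M ⋊[(PA 𝒜).subtype] PA 𝒜,
    ι = SemidirectProduct.inl := ⟨_, rfl⟩
  have hr : ι.range =
      (SemidirectProduct.rightHom : Monoid.CoprodI M ⋊[(PA 𝒜).subtype] PA 𝒜 →* _).ker := by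
    rw [hι]
    exact SemidirectProduct.range_inl_eq_ker_rightHom
  have hn : ι.range.Normal := by
    rw [hr]
    infer_instance
  have hinj : Function.Injective ι := hι ▸ SemidirectProduct.inl_injective
  have hconj : ∀ (g : Monoid.CoprodI M ⋊[(PA 𝒜).subtype] PA 𝒜) (y : Monoid.CoprodI M),
      g * ι y * g⁻¹ = ι (g.left * (g.right : MulAut (Monoid.CoprodI M)) y * g.left⁻¹) := by
    intro g y
    rw [hι]
    have h1 : g = SemidirectProduct.inl g.left * SemidirectProduct.inr g.right :=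
      (SemidirectProduct.inl_left_mul_inr_right g).symm
    have h2 : (SemidirectProduct.inl ((g.right : MulAut (Monoid.CoprodI M)) y) :
        Monoid.CoprodI M ⋊[(PA 𝒜).subtype] PA 𝒜) =
        SemidirectProduct.inr g.right * SemidirectProduct.inl y *
          SemidirectProduct.inr g.right⁻¹ := by
      rw [← SemidirectProduct.inl_aut]
      rfl
    rw [map_mul, map_mul, h2]
    calc g * SemidirectProduct.inl y * g⁻¹
        = (SemidirectProduct.inl g.left * SemidirectProduct.inr g.right) *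
          SemidirectProduct.inl y *
          (SemidirectProduct.inl g.left * SemidirectProduct.inr g.right)⁻¹ := by rw [← h1]
      _ = _ := by
        rw [map_inv, map_inv]
        group
  refine fpx hC hF Set.univ ι hinj ?_
    (fun i hi => absurd (Set.mem_univ i) hi) (fun i _ g σ h => ?_) ?_
  · exact C_equiv hC.base ((QuotientGroup.quotientMulEquivOfEq hr).trans
      (QuotientGroup.quotientKerEquivOfSurjective SemidirectProduct.rightHom
        SemidirectProduct.rightHom_surjective)) (C_PA 𝒜 hC hF hM hI hA hT)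
  · obtain ⟨g0, ψ, hψ, e⟩ := g.right.2 i
    have := hM i
    refine hT i σ (mem_of_conj (hI i) hψ (a := g.left * g0) fun x => ?_)
    have h1 := h x
    rw [hconj, e] at h1
    rw [← hinj h1]
    group
  · intro i _ g
    obtain ⟨g0, ψ, hψ, e⟩ := g.right.2 i
    refine ⟨g.left * g0, ψ, fun x => ?_⟩
    rw [hconj, e, ← map_inv, ← map_mul, ← map_mul]
    congr 1
    group

theorem C_hol_fin (hC : Pool.Agent.Y462.SS.Closed C) {N : Type} [Group N]
    {H₀ H : Subgroup (MulAut N)} (h0 : C (N ⋊[H₀.subtype] H₀)) (h : H₀.relIndex H ≠ 0) :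
    C (N ⋊[H.subtype] H) := by
  refine hC.finiteIndex _ ((H₀.subgroupOf H).comap
    (SemidirectProduct.rightHom : N ⋊[H.subtype] H →* H)) ⟨?_⟩ ?_
  · rw [Subgroup.index_comap_of_surjective _ SemidirectProduct.rightHom_surjective]
    exact h
  · refine hC.of_injective _ (N ⋊[H₀.subtype] H₀)
      { toFun := fun x => ⟨x.1.left, ⟨x.1.right, x.2⟩⟩
        map_one' := rfl
        map_mul' := fun _ _ => rfl } ?_ h0
    intro x y hxy
    have h1 : x.1.left = y.1.left :=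
      congrArg (fun z : N ⋊[H₀.subtype] H₀ => z.left) hxy
    have h2 : ((x.1.right : H) : MulAut N) = y.1.right :=
      congrArg (fun z : N ⋊[H₀.subtype] H₀ => (z.right : MulAut N)) hxy
    exact Subtype.ext (SemidirectProduct.ext h1 (Subtype.ext h2))

/-- a subgroup in which the elements of `PA 𝒜` have finite index -/
theorem main (hC : ClosedE C) (hF : FbC C) (hM : ∀ i, Nontrivial (M i))
    (hI : ∀ i (x : M i), MulAut.conj x ∈ 𝒜 i) (hA : ∀ i, C (𝒜 i))
    (hT : ∀ (i : Fin 3), ∀ σ ∈ 𝒜 i, C (M i ⋊[zpowersHom (MulAut (M i)) σ] Multiplicative ℤ))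
    (H : Subgroup (MulAut (Monoid.CoprodI M))) (hr : (PA 𝒜).relIndex H ≠ 0) :
    C (Monoid.CoprodI M ⋊[H.subtype] H) ∧ C (H ⧸ (Inn (Monoid.CoprodI M)).subgroupOf H) := by
  refine ⟨C_hol_fin hC.base (C_hol 𝒜 hC hF hM hI hA hT) hr, ?_⟩
  obtain ⟨f, hf⟩ : ∃ f : H →* MulAut (Monoid.CoprodI M) ⧸ Inn (Monoid.CoprodI M),
    f = (QuotientGroup.mk' (Inn (Monoid.CoprodI M))).comp H.subtype := ⟨_, rfl⟩
  have hk : (Inn (Monoid.CoprodI M)).subgroupOf H = f.ker := by
    ext φ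
    rw [MonoidHom.mem_ker, hf, Subgroup.mem_subgroupOf]
    exact (QuotientGroup.eq_one_iff _).symm
  refine C_equiv hC.base ((QuotientGroup.quotientMulEquivOfEq hk).trans
    (QuotientGroup.quotientKerEquivRange f)) ?_
  have hdvd := Subgroup.index_map_dvd ((PA 𝒜).subgroupOf H) f.rangeRestrict_surjective
  refine hC.base.finiteIndex _ (((PA 𝒜).subgroupOf H).map f.rangeRestrict)
    ⟨fun h0 => hr (Nat.eq_zero_of_zero_dvd (h0 ▸ hdvd))⟩ ?_
  refine hC.base.of_injective _ ↥((PA 𝒜).map (QuotientGroup.mk' (Inn (Monoid.CoprodI M))))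
    { toFun := fun x => ⟨x.1.1, ?_⟩
      map_one' := rfl
      map_mul' := fun _ _ => rfl } ?_ (C_out 𝒜 hC hF hM hI hA hT)
  · obtain ⟨x, y, hy, rfl⟩ := x
    refine ⟨y, hy, ?_⟩
    show _ = f y
    rw [hf]
    rfl
  · intro x y hxy
    exact Subtype.ext (Subtype.ext (congrArg
      (fun z : ↥((PA 𝒜).map (QuotientGroup.mk' (Inn (Monoid.CoprodI M)))) =>
        (z : MulAut (Monoid.CoprodI M) ⧸ Inn (Monoid.CoprodI M))) hxy))

/-- finite index -/
theorem relIndex_perm (H : Subgroup (MulAut (Monoid.CoprodI M)))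
    (hH : ∀ φ ∈ H, ∀ i, ∃ (j : Fin 3) (g : Monoid.CoprodI M),
      (of (M := M) (i := i)).range.map φ.toMonoidHom =
        (of (M := M) (i := j)).range.map (MulAut.conj g).toMonoidHom) :
    (PAut M).relIndex H ≠ 0 := by
  classical
  have h1 : ∀ (φ : H) (i : Fin 3), ∃ (j : Fin 3) (g : Monoid.CoprodI M),
      (of (M := M) (i := i)).range.map (φ : MulAut (Monoid.CoprodI M)).toMonoidHom =
        (of (M := M) (i := j)).range.map (MulAut.conj g).toMonoidHom := fun φ i => hH φ φ.2 i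
  choose j g h2 using h1
  have h3 : ∀ φ φ' : H, j φ = j φ' → φ⁻¹ * φ' ∈ (PAut M).subgroupOf H := by
    intro φ φ' hj
    rw [Subgroup.mem_subgroupOf]
    intro i
    refine ⟨(φ : MulAut (Monoid.CoprodI M))⁻¹ (g φ' i * (g φ i)⁻¹), ?_⟩
    have e1 : ((φ⁻¹ * φ' : H) : MulAut (Monoid.CoprodI M)).toMonoidHom =
        ((φ : MulAut (Monoid.CoprodI M))⁻¹).toMonoidHom.comp
          (φ' : MulAut (Monoid.CoprodI M)).toMonoidHom := rfl
    have e2 : (MulAut.conj ((φ : MulAut (Monoid.CoprodI M))⁻¹ (g φ' i * (g φ i)⁻¹))).toMonoidHom =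
        (((φ : MulAut (Monoid.CoprodI M))⁻¹).toMonoidHom.comp
          (MulAut.conj (g φ' i * (g φ i)⁻¹)).toMonoidHom).comp
            (φ : MulAut (Monoid.CoprodI M)).toMonoidHom := by
      ext x
      simp [MulAut.conj_apply, mul_assoc]
    rw [e1, e2, ← Subgroup.map_map, h2, ← Subgroup.map_map, h2, hj, Subgroup.map_map,
      Subgroup.map_map]
    congr 1
    rw [MonoidHom.comp_assoc]
    congr 1
    ext x
    simp [MulAut.conj_apply, mul_assoc]
  have h4 : Finite (H ⧸ (PAut M).subgroupOf H) := by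
    refine Finite.of_injective (β := Fin 3 → Fin 3) (fun q => j q.out) ?_
    intro a b hab
    have h5 := h3 a.out b.out hab
    rw [← QuotientGroup.eq] at h5
    rwa [QuotientGroup.out_eq', QuotientGroup.out_eq'] at h5
  rw [Subgroup.relIndex]
  exact Subgroup.index_ne_zero_of_finite

theorem relIndex_perm' (H : Subgroup (MulAut (Monoid.CoprodI M)))
    (hH : ∀ φ ∈ H, ∀ i, ∃ (j : Fin 3) (g : Monoid.CoprodI M), ∀ y : Monoid.CoprodI M,
      y ∈ (of (M := M) (i := i)).range ↔ g * φ y * g⁻¹ ∈ (of (M := M) (i := j)).range) :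
    (PAut M).relIndex H ≠ 0 := by
  refine relIndex_perm H fun φ hφ i => ?_
  obtain ⟨j, g, h⟩ := hH φ hφ i
  refine ⟨j, g⁻¹, ?_⟩
  ext y
  constructor
  · rintro ⟨z, hz, rfl⟩
    refine ⟨g * φ z * g⁻¹, (h z).1 hz, ?_⟩
    show g⁻¹ * (g * φ z * g⁻¹) * g⁻¹⁻¹ = φ z
    group
  · rintro ⟨z, hz, rfl⟩
    refine ⟨φ⁻¹ (g⁻¹ * z * g), (h _).2 ?_, ?_⟩
    · have h1 : φ (φ⁻¹ (g⁻¹ * z * g)) = g⁻¹ * z * g := MulAut.apply_inv_self _ _ _
      rw [h1]
      have h2 : g * (g⁻¹ * z * g) * g⁻¹ = z := by group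
      rw [h2]
      exact hz
    · show φ (φ⁻¹ (g⁻¹ * z * g)) = g⁻¹ * z * g⁻¹⁻¹
      rw [inv_inv]
      exact MulAut.apply_inv_self _ _ _

end Pool.Agent.Run7.h1.AF
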